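import Mathlib

/-!
# Torsion growth and products with surfaces
-/

set_option autoImplicit false

open Filter

namespace Pool.Agent.X264.TG

universe u

/-- Closed aspherical Riemannian manifolds `M` of odd dimension `2 k + 1` with vanishing `L²`-Betti
numbers, the chains of finite index normal subgroups of `π₁(M)` with trivial intersection, the
`L²`-torsion, the indices, the orders `tors M c j n = |tors H_j(M_n)|` (`= 1` for `j < 0`); closed
oriented hyperbolic surfaces with their chains, indices, Euler characteristic, the first Betti numbers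
`betti F d n = b₁(F_n)`, and products. -/
structure Theory where
  Mfd : Type u
  Chain : Mfd → Type u
  k : Mfd → ℕ
  ρ : Mfd → ℝ
  index : ∀ M, Chain M → ℕ → ℕ
  tors : ∀ M, Chain M → ℤ → ℕ → ℕ
  Surf : Type u
  SChain : Surf → Type u
  χ : Surf → ℝ
  sindex : ∀ F, SChain F → ℕ → ℕ
  betti : ∀ F, SChain F → ℕ → ℕ
  prod : Mfd → Surf → Mfd
  pchain : ∀ M F, Chain M → SChain F → Chain (prod M F)

namespace Theory

variable (T : Theory.{u})

/-- the normalised logarithm of the order of the torsion of `H_j(M_n)` -/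
noncomputable def growth (M : T.Mfd) (c : T.Chain M) (j : ℤ) (n : ℕ) : ℝ :=
  Real.log (T.tors M c j n) / T.index M c n

/-- Q1 for `M` and the chain `c`. -/
def Holds (M : T.Mfd) (c : T.Chain M) : Prop :=
  Tendsto (T.growth M c (T.k M)) atTop (nhds ((-1) ^ T.k M * T.ρ M))

/-- Indices and orders are positive; the indices of a chain in a surface group tend to infinity. -/
def HasIndices : Prop :=
  (∀ M c n, 0 < T.index M c n) ∧ (∀ M c j n, 0 < T.tors M c j n) ∧
    (∀ F d n, 0 < T.sindex F d n) ∧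
    ∀ F d, Tendsto (fun n => ((T.sindex F d n : ℕ) : ℝ)) atTop atTop

/-- The torsion grows at most exponentially in the index. -/
def HasBound : Prop :=
  ∀ M c j, ∃ C : ℝ, ∀ n, Real.log (T.tors M c j n) ≤ C * T.index M c n

/-- Surfaces: `χ(F) < 0` and `b₁(F_n) = 2 - χ(F) [π₁(F) : π₁(F_n)]`. -/
def HasSurfaces : Prop :=
  (∀ F, T.χ F < 0) ∧ ∀ F d n, (T.betti F d n : ℝ) = 2 - T.χ F * T.sindex F d n

/-- The Künneth formula for the torsion of `H_(k+1)(M_n × F_n)`. -/
def HasKuenneth : Prop :=
  ∀ M F c d n, T.tors (T.prod M F) (T.pchain M F c d) (T.k M + 1) n =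
    T.tors M c (T.k M + 1) n * T.tors M c (T.k M) n ^ T.betti F d n * T.tors M c (T.k M - 1) n

/-- Dimension, index and `L²`-torsion of a product. -/
def HasProducts : Prop :=
  (∀ M F, T.k (T.prod M F) = T.k M + 1) ∧
    (∀ M F c d n, T.index (T.prod M F) (T.pchain M F c d) n = T.index M c n * T.sindex F d n) ∧
    ∀ M F, T.ρ (T.prod M F) = T.χ F * T.ρ M

/-- There is a surface, with a chain. -/
def HasOne : Prop := ∃ F : T.Surf, Nonempty (T.SChain F)

/-- The facts which are used. -/
structure IsKnown : Prop where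
  indices : T.HasIndices
  bound : T.HasBound
  surfaces : T.HasSurfaces
  kuenneth : T.HasKuenneth
  products : T.HasProducts
  one : T.HasOne

variable {T}

lemma growth_bounded (hT : T.IsKnown) (M : T.Mfd) (c : T.Chain M) (j : ℤ) :
    ∃ C : ℝ, ∀ n, |T.growth M c j n| ≤ C := by
  obtain ⟨C, hC⟩ := hT.bound M c j
  refine ⟨C, fun n => ?_⟩
  have hi : (0 : ℝ) < T.index M c n := by exact_mod_cast hT.indices.1 M c n
  have hl : 0 ≤ Real.log (T.tors M c j n) :=
    Real.log_nonneg (by exact_mod_cast hT.indices.2.1 M c j n)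
  unfold growth
  rw [abs_of_nonneg (div_nonneg hl hi.le), div_le_iff₀ hi]
  exact hC n

/-- the growth for a product -/
lemma growth_prod (hT : T.IsKnown) (M : T.Mfd) (F : T.Surf) (c : T.Chain M) (d : T.SChain F)
    (n : ℕ) : T.growth (T.prod M F) (T.pchain M F c d) (T.k M + 1) n =
      -T.χ F * T.growth M c (T.k M) n +
        (T.growth M c (T.k M + 1) n + 2 * T.growth M c (T.k M) n + T.growth M c (T.k M - 1) n) /
          T.sindex F d n := by
  have hi : (T.index M c n : ℝ) ≠ 0 := by exact_mod_cast (hT.indices.1 M c n).ne'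
  have hs : (T.sindex F d n : ℝ) ≠ 0 := by exact_mod_cast (hT.indices.2.2.1 F d n).ne'
  have h1 : ((T.tors M c (T.k M + 1) n : ℕ) : ℝ) ≠ 0 := by
    exact_mod_cast (hT.indices.2.1 M c _ n).ne'
  have h2 : ((T.tors M c (T.k M) n : ℕ) : ℝ) ≠ 0 := by
    exact_mod_cast (hT.indices.2.1 M c _ n).ne'
  have h3 : ((T.tors M c (T.k M - 1) n : ℕ) : ℝ) ≠ 0 := by
    exact_mod_cast (hT.indices.2.1 M c _ n).ne'
  unfold growth
  rw [hT.kuenneth, hT.products.2.1]
  push_cast
  rw [Real.log_mul (mul_ne_zero h1 (pow_ne_zero _ h2)) h3, Real.log_mul h1 (pow_ne_zero _ h2),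
    Real.log_pow, hT.surfaces.2]
  field_simp
  ring

/-- products with surfaces -/
theorem holds_prod (hT : T.IsKnown) (M : T.Mfd) (F : T.Surf) (c : T.Chain M) (d : T.SChain F) :
    T.Holds (T.prod M F) (T.pchain M F c d) ↔ T.Holds M c := by
  have hχ : -T.χ F ≠ 0 := neg_ne_zero.2 (hT.surfaces.1 F).ne
  -- the error term
  have herr : Tendsto (fun n => (T.growth M c (T.k M + 1) n + 2 * T.growth M c (T.k M) n +
      T.growth M c (T.k M - 1) n) / T.sindex F d n) atTop (nhds 0) := by
    obtain ⟨C1, h1⟩ := growth_bounded hT M c (T.k M + 1)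
    obtain ⟨C2, h2⟩ := growth_bounded hT M c (T.k M)
    obtain ⟨C3, h3⟩ := growth_bounded hT M c (T.k M - 1)
    have h4 : Tendsto (fun n => (C1 + 2 * C2 + C3) / (T.sindex F d n : ℝ)) atTop (nhds 0) :=
      (hT.indices.2.2.2 F d).const_div_atTop _
    refine squeeze_zero_norm (fun n => ?_) h4
    have hs : (0 : ℝ) < T.sindex F d n := by exact_mod_cast hT.indices.2.2.1 F d n
    rw [Real.norm_eq_abs, abs_div, abs_of_pos hs]
    apply div_le_div_of_nonneg_right _ hs.le
    refine (abs_add_le _ _).trans (add_le_add ((abs_add_le _ _).trans (add_le_add (h1 n) ?_)) (h3 n))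
    rw [abs_mul, abs_of_pos (by norm_num : (0 : ℝ) < 2)]
    linarith [h2 n]
  have hfun : T.growth (T.prod M F) (T.pchain M F c d) (T.k M + 1) = fun n =>
      -T.χ F * T.growth M c (T.k M) n + (T.growth M c (T.k M + 1) n +
        2 * T.growth M c (T.k M) n + T.growth M c (T.k M - 1) n) / T.sindex F d n :=
    funext fun n => growth_prod hT M F c d n
  have hlim : (-1 : ℝ) ^ (T.k M + 1) * (T.χ F * T.ρ M) = -T.χ F * ((-1) ^ T.k M * T.ρ M) := by
    rw [pow_succ]
    ring
  unfold Holds
  rw [hT.products.1, hT.products.2.2, Nat.cast_succ, hfun, hlim]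
  constructor
  · intro h
    have h5 := (h.sub herr).const_mul (-T.χ F)⁻¹
    simp only [add_sub_cancel_right, sub_zero] at h5
    have h6 : (-T.χ F)⁻¹ * (-T.χ F * ((-1) ^ T.k M * T.ρ M)) = (-1) ^ T.k M * T.ρ M := by
      rw [← mul_assoc, inv_mul_cancel₀ hχ, one_mul]
    rw [h6] at h5
    refine h5.congr fun n => ?_
    rw [← mul_assoc, inv_mul_cancel₀ hχ, one_mul]
  · intro h
    have h5 := (h.const_mul (-T.χ F)).add herr
    rw [add_zero] at h5
    exact h5

/-- large dimensions suffice -/
theorem large (hT : T.IsKnown) (N : ℕ) :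
    (∀ M c, T.Holds M c) ↔ ∀ M c, N ≤ T.k M → T.Holds M c := by
  refine ⟨fun h M c _ => h M c, fun h => ?_⟩
  obtain ⟨F, ⟨d⟩⟩ := hT.one
  have key : ∀ m : ℕ, ∀ M c, N ≤ T.k M + m → T.Holds M c := by
    intro m
    induction m with
    | zero => exact fun M c hM => h M c hM
    | succ m ih =>
      intro M c hM
      rw [← holds_prod hT M F c d]
      apply ih
      rw [hT.products.1]
      omega
  exact fun M c => key N M c (Nat.le_add_left _ _)

end Theory

end Pool.Agent.X264.TG
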